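import Pool.Agent.Q7.CF.All4
import Pool.Agent.Q7.CF.Short
import Pool.Agent.Q7.LK.Uni

/-!
# Jacobians of the quotients of twisted Fermat curves over number fields containing the `p`-th roots of unity: rank and
# Tate-Shafarevich group

Let `p` be an odd prime and `F` any number field which contains a primitive `p`-th root of unity. For `D ∈ F^*` and
`1 ≤ r ≤ p - 2` let `C_(r, D)` be the curve `v^p = u (D - u)^r`, of genus `(p - 1)/2` (the quotient of the twisted Fermat curve
`X^p + Y^p = D` given by `u = X^p`, `v = X Y^r`; for `p = 3` it is the elliptic curve `y² + D y = x³`), and `J_(r, D)` its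
Jacobian, with multiplication by `ℤ[ζ_p]`. For fixed `r` these are the twists of `J_(r, 1)` by the characters of order `p` of `F`.
Prescribe `D` up to `p`-th powers in the completions at all places above the prime numbers `≤ y` (it is equal to `D₀` there), and the
orders `z_i ≠ 0` modulo `p` of `D` at `k` further primes `q_0, …, q_(k-1)`, of norms `≤ X_0, …, X_(k-1)` (the order is divisible
by `p` at all other primes), for large `k`, `X_0`, then `X_1` large in terms of `X_0`, and so on. Let
`α_p = ∏ (1 - p^(-(2 i + 1)))`, `i = 0, 1, …`; it is larger than `1 - 1/p - 1/(p (p² - 1))` (`0.639`, `0.793`, `0.854` for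
`p = 3, 5, 7`).

Theorem. For every `r`, for at least the share `α_p - ε` of the `D` of each of these families, `J_(r, D)(F)` is generated by an
element `T` of order `p` and the `p`-fold elements, so that it is finite if it is finitely generated (theorem of Mordell and
Weil), and the `p`-primary part of the Tate-Shafarevich group of `J_(r, D)` over `F` is zero. For at least the share
`1 - (p - 1)/2 (1 - α_p) - ε > 1/2` this is true for all `r` at the same time.

The curve has one point at infinity, and `J_(r, D)(L)` is the class group of its coordinate ring over `L`, the subring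
of `L[X, Y] / (X^p + Y^p - D)` spanned by the monomials `X^a Y^b` with `b ≡ r a` modulo `p`.

Proof. `1 - ζ` acts on the geometric points of `J` with the kernel `⟨T⟩`, and `J(F) / (1 - ζ) J(F)` is embedded in `F^*` modulo
`p`-th powers by the value of the function `u`, over every field containing `ζ` (this is proved with ideals, without the theory
of Jacobians). Over every field the images of two elements are orthogonal for the symbols of `K`-theory: an identity of
Steinberg relations for two points of the curve. So over the completions at the places above `p` the image is an isotropic group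
for the Hilbert symbol, contained in a maximal isotropic group, and outside `p` one gets conditions by the power residue symbols.
By the reciprocity law over `F` and Chebotarev's theorem the elements of `F^*` modulo `p`-th powers which satisfy the local
conditions of maximal isotropic groups are the kernel of a random symmetric matrix over `F_p` (project EN of helper283), so that the
share of the `D` for which they are the powers of `D` tends to `α_p`. If there are no others, `J(F) = ⟨T⟩ + (1 - ζ) J(F)`, and a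
locally trivial cocycle with values in `⟨T⟩` is a coboundary.

The parts were proved together with helpers 13, 14, 38, 53, 65, 79, 94, 123, 124, 150, 151, 153, 162, 164, 176, 182, 190, 198, 205,
211, 214, 222, 223, 224, 238, 259, 262, 265, 275, 277, 280, 283, 285 and 299.
-/

set_option autoImplicit false

namespace Pool.Agent.Results.MP_dfae13_nt.FermatQuotientJacobians

open NumberField IsDedekindDomain Filter Topology
open Pool.Agent.Q7.CF (Ok Jac ShaJ)

section Ensemble

variable {F : Type} [Field F] [NumberField F]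

/-- The group of the `F`-points of the Jacobian of `v^p = u (D - u)^r` is generated by one element of order dividing `p` and the
`p`-fold elements, it is finite if it is finitely generated, and the Tate-Shafarevich group has no elements of order `p`, `p ^ 2`,
…. -/
def Trivial (p r : ℕ) [Fact p.Prime] [Ok p r] (D : F) : Prop :=
  (∃ T : Jac p r D F, p • T = 0 ∧ ∀ c : Jac p r D F, ∃ (i : ℕ) (d : Jac p r D F), c = i • T + p • d) ∧
  (AddGroup.FG (Jac p r D F) → Finite (Jac p r D F)) ∧
  ∀ (n : ℕ) (x : ShaJ p r D), p ^ n • x = 0 → x = 0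

/-- `α_p`, the product of the `1 - p ^ (-(2 i + 1))`, `i = 0, 1, …`. -/
noncomputable def alpha (p : ℕ) : ℝ := ∏' i : ℕ, (1 - (1 / (p : ℝ)) ^ (2 * i + 1))

/-- The order of `a` at `v` modulo `p`. -/
noncomputable def orderMod (p : ℕ) (v : HeightOneSpectrum (𝓞 F)) (a : F) : ZMod p :=
  -((WithZero.log (v.valuation F a) : ℤ) : ZMod p)

/-- `a` is the `p`-th power of a nonzero element of the completion of `F` at `v`. -/
def PowerAt (p : ℕ) (v : HeightOneSpectrum (𝓞 F)) (a : F) : Prop :=
  a ≠ 0 ∧ ∃ s : v.adicCompletion F, (a : v.adicCompletion F) = s ^ p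

/-- `v` lies above a prime number `l ≤ y`. -/
def Small (y : ℕ) (v : HeightOneSpectrum (𝓞 F)) : Prop :=
  ∃ l : ℕ, l.Prime ∧ l ≤ y ∧ (l : 𝓞 F) ∈ v.asIdeal

open Classical in
/-- Among the primes not above prime numbers `≤ y` the order of `D` modulo `p` is `z i` at the prime `q i` and `0` at the
others; and at the primes above prime numbers `≤ y` the number `D` is equal to `D₀` up to local `p`-th powers. -/
structure Fits (p y : ℕ) (D₀ : F) {k : ℕ} (z : Fin k → ZMod p) (q : Fin k → HeightOneSpectrum (𝓞 F)) (D : F) :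
    Prop where
  ne : D ≠ 0
  ram : ∀ v : HeightOneSpectrum (𝓞 F), ¬ Small y v → orderMod p v D = ∑ i, if q i = v then z i else 0
  loc : ∀ v : HeightOneSpectrum (𝓞 F), Small y v → PowerAt p v (D / D₀)

/-- The ensemble: the tuples of `k` different primes `q i`, not above prime numbers `≤ y`, of norm `≤ X i`, to which a
`D` belongs. -/
def Ensemble (p y : ℕ) (D₀ : F) {k : ℕ} (z : Fin k → ZMod p) (X : Fin k → ℕ) : Set (Fin k → HeightOneSpectrum (𝓞 F)) :=
  {q | (Function.Injective q ∧ ∀ i, ¬ Small y (q i) ∧ Ideal.absNorm (q i).asIdeal ≤ X i) ∧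
    ∃ D, Fits p y D₀ z q D}

end Ensemble

/-- `P X` is true for all large `X 0`, for all `X 1` which are large in terms of `X 0`, …, for all `X (k-1)` which are
large in terms of the others. -/
def Nested : (k : ℕ) → ((Fin k → ℕ) → Prop) → Prop
  | 0, P => P Fin.elim0
  | k + 1, P => Nested k fun X => ∀ᶠ x : ℕ in atTop, P (Fin.snoc (α := fun _ => ℕ) X x)

section Proof

theorem nested_iff : ∀ (k : ℕ) (P : (Fin k → ℕ) → Prop), Nested k P ↔ Q283.LQ.Nest k P
  | 0, _ => Iff.rfl
  | k + 1, _ => nested_iff k _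

variable {F : Type} [Field F] [NumberField F]

theorem fits_iff {p y : ℕ} [Fact p.Prime] {D₀ : F} {k : ℕ} {z : Fin k → ZMod p}
    {q : Fin k → HeightOneSpectrum (𝓞 F)} {D : F} : Fits p y D₀ z q D ↔ Q7.LK.Fits p y D₀ z q D := by
  constructor
  · intro h
    exact ⟨h.ne, h.ram, fun v hv => (Q7.LK.t_CPL p F v _).mpr (h.loc v hv)⟩
  · intro h
    exact ⟨h.ne, h.ram, fun v hv => (Q7.LK.t_CPL p F v _).mp (h.loc v hv)⟩

theorem ens_eq {p y : ℕ} [Fact p.Prime] {D₀ : F} {k : ℕ} {z : Fin k → ZMod p} {X : Fin k → ℕ} :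
    Ensemble p y D₀ z X = Q7.CF.Ens p y D₀ z X := by
  ext q
  simp only [Ensemble, Q7.CF.Ens, Q283.LQ.Box, Set.mem_ofPred_eq, fits_iff]
  rfl

theorem alpha_eq (p : ℕ) : Q283.EN.al p 0 = alpha p := by
  unfold Q283.EN.al alpha
  rw [Finset.range_zero, Finset.prod_empty, div_one]

theorem trivial_of_good {p r : ℕ} [Fact p.Prime] [Ok p r] {D : F} (hD : D ≠ 0) (h : Q7.CF.GoodF p r D) :
    Trivial p r D := by
  obtain ⟨h1, h2⟩ := h inferInstance
  have h3 := Q7.CF.class_form Q7.CF.t_DED Q7.CF.t_NMM p r F D hD h1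
  refine ⟨h3, fun hfg => ?_, Q7.CF.sha_of h2⟩
  have h4 : AddGroup.FG (Additive (ClassGroup (Q7.CF.BQ p r D))) := hfg
  exact Q7.CF.fin_form p (A := ClassGroup (Q7.CF.BQ p r D)) h3 (GroupFG.iff_add_fg.mpr h4)

end Proof

/-- **Main result.** -/
theorem result (p : ℕ) [Fact p.Prime] (hp : p ≠ 2) (F : Type) [Field F] [NumberField F] (ζ : F)
    (hζ : IsPrimitiveRoot ζ p) :
    (p : ℝ) / ((p : ℝ) ^ 2 - 1) ≥ 1 - alpha p ∧
    ∃ y₀ : ℕ, ∀ y, y₀ ≤ y → ∀ D₀ : F, D₀ ≠ 0 →
      (∀ (k : ℕ) (z : Fin k → ZMod p) (q : Fin k → HeightOneSpectrum (𝓞 F)) (D D' : F),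
        Fits p y D₀ z q D → Fits p y D₀ z q D' → ∃ x : F, D = D' * x ^ p) ∧
      ∀ ε : ℝ, 0 < ε → ∃ k₀ : ℕ, ∀ k, k₀ ≤ k → ∀ z : Fin k → ZMod p, (∀ i, z i ≠ 0) → Nested k fun X =>
        (Ensemble p y D₀ z X).Finite ∧ (Ensemble p y D₀ z X).Nonempty ∧
        (∀ (r : ℕ) [Ok p r], (alpha p - ε) * (Ensemble p y D₀ z X).ncard ≤
          ({q ∈ Ensemble p y D₀ z X | ∀ D, Fits p y D₀ z q D → Trivial p r D}.ncard : ℝ)) ∧
        (1 - ((p : ℝ) - 1) / 2 * (1 - alpha p) - ε) * (Ensemble p y D₀ z X).ncard ≤
          ({q ∈ Ensemble p y D₀ z X | ∀ D, Fits p y D₀ z q D → ∀ (r : ℕ) [Ok p r], Trivial p r D}.ncard : ℝ) := by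
  have hp1 : (0 : ℝ) < (p : ℝ) - 1 := by
    have : (1 : ℝ) < p := by exact_mod_cast (Fact.out : p.Prime).one_lt
    linarith
  refine ⟨?_, ?_⟩
  · have h1 := (Q7.CF.t_LW8 p hp).1
    rw [alpha_eq] at h1
    rw [ge_iff_le, le_div_iff₀ (by nlinarith)]
    rw [le_div_iff₀ (by positivity)] at h1
    nlinarith
  obtain ⟨y1, hy1⟩ := Q7.CF.t_MAIN3 p hp F ζ hζ
  obtain ⟨y2, hy2⟩ := Q7.LK.uniq Q7.LK.t_BAS Q7.LK.t_BASE p hp F ζ hζ
  refine ⟨max y1 y2, fun y hy D₀ hD₀ => ⟨fun k z q D D' hD hD' => ?_, fun ε hε => ?_⟩⟩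
  · obtain ⟨x, hx⟩ := hy2 y (le_trans (le_max_right _ _) hy) D₀ hD₀ k z q D D' (fits_iff.mp hD) (fits_iff.mp hD')
    refine ⟨x, ?_⟩
    rw [← hx, mul_div_cancel₀ _ hD'.ne]
  obtain ⟨k0, hk0⟩ := hy1 y (le_trans (le_max_left _ _) hy) D₀ hD₀ ε hε
  refine ⟨k0, fun k hk z hz => (nested_iff k _).mpr (Q7.LK.nest_mono k _ _ (fun X hX => ?_) (hk0 k hk z hz))⟩
  obtain ⟨hfin, hpos, h1, h2⟩ := hX
  rw [← ens_eq] at hpos h1 h2
  rw [alpha_eq] at h1 h2
  have hEfin : (Ensemble p y D₀ z X).Finite := by
    rw [ens_eq]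
    exact hfin.subset (fun q hq => hq.1)
  refine ⟨hEfin, ?_, fun r hr => ?_, ?_⟩
  · rw [← Set.ncard_pos hEfin]
    exact_mod_cast hpos
  · refine le_trans (h1 r hr) (Nat.cast_le.2 (Set.ncard_le_ncard ?_ (hEfin.subset (fun q hq => hq.1))))
    rintro q ⟨hq, h⟩
    exact ⟨hq, fun D hf => trivial_of_good hf.ne (h D (fits_iff.mp hf))⟩
  · refine le_trans h2 (Nat.cast_le.2 (Set.ncard_le_ncard ?_ (hEfin.subset (fun q hq => hq.1))))
    rintro q ⟨hq, h⟩
    refine ⟨hq, fun D hf r hr => trivial_of_good hf.ne ((h D (fits_iff.mp hf)).2 r)⟩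

end Pool.Agent.Results.MP_dfae13_nt.FermatQuotientJacobians
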