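import Mathlib
import Pool.Agent.Q84.MB.C5

/-!
# The 3-part of the formula for abelian varieties of growing dimension: products of small cubic twists

`E_N : y² + N y = x³` over `ℚ`, `3`-isogenous to `x³ + y³ = N`. For a finite set `𝒩` of positive integers let
`A = ∏_{N ∈ 𝒩} E_N`, an abelian variety over `ℚ` of dimension `|𝒩|`.

The class consists of the cube-free positive integers `D` all of whose prime factors are `1` modulo `3`. For
every large `x` there is a small exceptional set `S` of primes (at most `(log x) ^ (49 / 50)` of them, all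
larger than a given bound `Z`) such that at least `x ^ (1 - ε)` primes `l ≤ x` in a given class `2`, `5`, `8`
modulo `9` decide the `3`-part of the leading-term formula for ALL the products of curves `E_{D l}`,
`E_{D l²}` at once, where `D` runs through the integers of the class whose prime factors are at most
`δ log x` and outside `S` (there are more such integers than any power of `log x`, so the dimensions are not
bounded by a power of `log x`): the diagonals of the linear systems over the field with three elements which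
decide the `3`-part can be prescribed arbitrarily.

The criterion for one curve is from the starting library
(`Pool.Agent.Results.MP_4a9ea6_nt.ThreePartCubicTwists`), see also `PrimeCubicTwists`; new are the primes with
prescribed cubic characters modulo almost all small primes (`Pool/Agent/Q84/MB`, based on the relative
Bombieri-Vinogradov theorem of `H378R2`).
-/

set_option autoImplicit false

open scoped Classical

namespace Pool.Agent.Results.MP_dfae13_nt.GrowingProducts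

open Finset
open Pool.Agent.Y703.CT (WD EQ ThreeUnit tamProd)
open Pool.Agent.TH841.SH.D (Sha)
open Pool.Agent.W97.MT (IsGloballyMinimal ap)
open Pool.Agent.Y700 (Omega)

/-- The group of the rational points of `A = ∏_{N ∈ 𝒩} E_N`. -/
abbrev Points (𝒩 : Finset ℕ) : Type := ∀ N : 𝒩, (EQ (WD ((N : ℕ) : ℤ))).toAffine.Point

/-- The Tate-Shafarevich group of `A = ∏_{N ∈ 𝒩} E_N`. -/
abbrev ShaA (𝒩 : Finset ℕ) : Type := ∀ N : 𝒩, Sha (EQ (WD ((N : ℕ) : ℤ)))

/-- `f` is entire and equal to the Euler product of `A = ∏_{N ∈ 𝒩} E_N` for `Re s > 3/2`. -/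
def IsLA (𝒩 : Finset ℕ) (f : ℂ → ℂ) : Prop :=
  Differentiable ℂ f ∧ ∀ s : ℂ, 3 / 2 < s.re →
    HasProd (fun p : Nat.Primes => ∏ N ∈ 𝒩, (1 - (ap (WD (N : ℤ)) p : ℂ) * ((p : ℕ) : ℂ) ^ (-s) +
      (if ((p : ℕ) : ℤ) ∣ (WD (N : ℤ)).Δ then 0 else ((p : ℕ) : ℂ) ^ (1 - 2 * s)))⁻¹) (f s)

/-- The `3`-part of the formula for `A = ∏_{N ∈ 𝒩} E_N`, with trivial `3`-part of `Ш`: the equations are globally
minimal, `A(ℚ)` is finite, `Ш(A)` has no element of order `3`, and there is an entire function `f` which is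
the `L`-series for `Re s > 3/2`, with `f 1 ≠ 0` and `f 1 = u ∏ (Ω ∏ c_p) / |A(ℚ)_tors|²` with a unit `u` at
`3`. -/
def ThreePart (𝒩 : Finset ℕ) : Prop :=
  (∀ N ∈ 𝒩, IsGloballyMinimal (WD (N : ℤ))) ∧ Finite (Points 𝒩) ∧
  (∀ (n : ℕ) (x : ShaA 𝒩), 3 ^ n • x = 0 → x = 0) ∧
  ∃ f : ℂ → ℂ, IsLA 𝒩 f ∧ f 1 ≠ 0 ∧ ∃ u : ℂ,
    f 1 = u * ((∏ N ∈ 𝒩, (((Omega (WD (N : ℤ)) : ℝ) : ℂ) * (tamProd (WD (N : ℤ)) : ℂ))) /
      (Nat.card (AddCommGroup.torsion (Points 𝒩)) : ℂ) ^ 2) ∧ ThreeUnit u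

/-- The class: cube-free, all prime factors `1` modulo `3`. -/
def Class (D : ℕ) : Prop := D ≠ 0 ∧ ∀ p : ℕ, p.Prime → p ∣ D → p % 3 = 1 ∧ ¬ p ^ 3 ∣ D

/-- A primitive cube root of unity modulo `p`. -/
noncomputable def root (p : ℕ) : ZMod p :=
  if h : ∃ g : ZMod p, g ^ 2 + g + 1 = 0 then h.choose else 0

/-- The cubic logarithm modulo a prime `p = 1` modulo `3`: `n ^ ((p - 1) / 3) = root p ^ log p n`. -/
noncomputable def log (p n : ℕ) : ZMod 3 :=
  if h : ∃ c : ZMod 3, (n : ZMod p) ^ ((p - 1) / 3) = root p ^ c.val then h.choose else 0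

/-- The linear system of `D` with `t` on the diagonal has only the solution zero. -/
def Nonsingular (D : ℕ) (t : ℕ → ZMod 3) : Prop :=
  ∀ g : ℕ → ZMod 3,
    (∀ p ∈ D.primeFactors, ∑ r ∈ D.primeFactors, (D.factorization r : ZMod 3) * log p r * (g r - g p) =
      t p * g p) → ∀ p ∈ D.primeFactors, g p = 0

/-- `N` is not `1` and not `-1` modulo `9`. -/
def Ok (N : ℕ) : Prop := N % 9 ≠ 1 ∧ N % 9 ≠ 8

/-- All the prime factors of `D` are at most `y` and outside `S`. -/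
def Small (S : Finset ℕ) (y : ℝ) (D : ℕ) : Prop := ∀ q : ℕ, q.Prime → q ∣ D → (q : ℝ) ≤ y ∧ q ∉ S

/-- The number of the primes `l ≤ x`, `l = a` modulo `9`, with the property `P`. -/
noncomputable def count (a : ℕ) (P : ℕ → Prop) (x : ℕ) : ℕ :=
  ((Icc 1 x).filter fun l => l.Prime ∧ l % 9 = a ∧ P l).card

/-- The pairs `(D, f)` for a given prime `l`: `D` in the class with small prime factors, `f = 1` or `2`,
`D l ^ f ≠ ±1` modulo `9`. -/
def Good (S : Finset ℕ) (y : ℝ) (l : ℕ) (z : ℕ × ℕ) : Prop :=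
  Class z.1 ∧ Small S y z.1 ∧ (z.2 = 1 ∨ z.2 = 2) ∧ Ok (z.1 * l ^ z.2)

/-- The numbers `D l ^ f`, `(D, f) ∈ P`. -/
noncomputable def twists (P : Finset (ℕ × ℕ)) (l : ℕ) : Finset ℕ := P.image fun z => z.1 * l ^ z.2

section proof

open Pool.Agent.Y703.CT (Triv3 Cls NoSplit tors ThreeInt fin_all)

theorem int_mul {u v : ℂ} (hu : ThreeInt u) (hv : ThreeInt v) : ThreeInt (u * v) := by
  obtain ⟨n, hn, hnu⟩ := hu
  obtain ⟨m, hm, hmv⟩ := hv
  refine ⟨n * m, hn.mul_right hm, ?_⟩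
  have e : ((n * m : ℤ) : ℂ) * (u * v) = ((n : ℂ) * u) * ((m : ℂ) * v) := by push_cast; ring
  rw [e]
  exact hnu.mul hmv

theorem unit_mul {u v : ℂ} (hu : ThreeUnit u) (hv : ThreeUnit v) : ThreeUnit (u * v) := by
  obtain ⟨hu0, n, hn, hnu, hnu'⟩ := hu
  obtain ⟨hv0, m, hm, hmv, hmv'⟩ := hv
  refine ⟨mul_ne_zero hu0 hv0, n * m, hn.mul_right hm, ?_, ?_⟩
  · have e : ((n * m : ℤ) : ℂ) * (u * v) = ((n : ℂ) * u) * ((m : ℂ) * v) := by push_cast; ring
    rw [e]
    exact hnu.mul hmv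
  · have e : ((n * m : ℤ) : ℂ) * (u * v)⁻¹ = ((n : ℂ) * u⁻¹) * ((m : ℂ) * v⁻¹) := by
      rw [mul_inv]; push_cast; ring
    rw [e]
    exact hnu'.mul hmv'

theorem unit_one : ThreeUnit 1 := by
  refine ⟨one_ne_zero, 1, isCoprime_one_right, ?_, ?_⟩
  · simpa using isIntegral_one
  · simpa using isIntegral_one

theorem unit_prod (𝒩 : Finset ℕ) (u : ℕ → ℂ) (hu : ∀ N ∈ 𝒩, ThreeUnit (u N)) :
    ThreeUnit (∏ N ∈ 𝒩, u N) := by
  induction 𝒩 using Finset.induction_on with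
  | empty => simpa using unit_one
  | insert a s ha ih =>
    rw [prod_insert ha]
    exact unit_mul (hu a (mem_insert_self _ _)) (ih fun N hN => hu N (mem_insert_of_mem hN))

theorem triv_of {𝒩 : Finset ℕ} (h1 : Finite (Points 𝒩))
    (h2 : ∀ (n : ℕ) (x : ShaA 𝒩), 3 ^ n • x = 0 → x = 0) {N : ℕ} (hN : N ∈ 𝒩) : Triv3 N := by
  refine ⟨?_, fun n x hx => ?_⟩
  · have := Pi.single_injective (M := fun M : 𝒩 => (EQ (WD ((M : ℕ) : ℤ))).toAffine.Point)
      (⟨N, hN⟩ : 𝒩)
    exact Finite.of_injective (β := Points 𝒩) _ this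
  · have e : (3 ^ n • (Pi.single (⟨N, hN⟩ : 𝒩) x : ShaA 𝒩)) = 0 := by
      funext M
      by_cases hM : M = ⟨N, hN⟩
      · subst hM
        rw [Pi.smul_apply, Pi.single_eq_same, hx]
        rfl
      · rw [Pi.smul_apply, Pi.single_eq_of_ne hM, smul_zero]
        rfl
    have h3 := h2 n _ e
    have h4 := congrFun h3 ⟨N, hN⟩
    rw [Pi.single_eq_same] at h4
    exact h4

theorem card_tors (𝒩 : Finset ℕ) (h : ∀ N ∈ 𝒩, Finite (EQ (WD (N : ℤ))).toAffine.Point) :
    Nat.card (AddCommGroup.torsion (Points 𝒩)) = ∏ N ∈ 𝒩, tors N := by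
  have hfin : ∀ N : 𝒩, Finite (EQ (WD ((N : ℕ) : ℤ))).toAffine.Point := fun N => h N N.2
  have h1 : ∀ N : 𝒩, tors N = Nat.card (EQ (WD ((N : ℕ) : ℤ))).toAffine.Point := by
    intro N
    have := hfin N
    unfold tors
    have h2 : AddCommGroup.torsion (EQ (WD ((N : ℕ) : ℤ))).toAffine.Point = ⊤ := by
      rw [eq_top_iff]
      intro P _
      exact isOfFinAddOrder_of_finite P
    rw [h2]
    exact AddSubgroup.card_top
  have h2 : AddCommGroup.torsion (Points 𝒩) = ⊤ := by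
    rw [eq_top_iff]
    intro P _
    exact isOfFinAddOrder_of_finite P
  rw [h2, AddSubgroup.card_top, Nat.card_pi, ← prod_coe_sort 𝒩 tors]
  exact (prod_congr rfl fun N _ => h1 N).symm

theorem part_iff {𝒩 : Finset ℕ} (hC : ∀ N ∈ 𝒩, Cls N) :
    ThreePart 𝒩 ↔ ∀ N ∈ 𝒩, Q283.TQ.Con N := by
  constructor
  · rintro ⟨-, h1, h2, -⟩ N hN
    obtain ⟨-, -, -, -, -, -, -, h3⟩ := fin_all (hC N hN)
    rw [Q283.TQ.con_iff (hC N hN)]
    exact h3.1 (triv_of h1 h2 hN)
  · intro h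
    unfold Q283.TQ.Con at h
    have h' : ∀ N : ℕ, ∃ (f : ℂ → ℂ) (u : ℂ), N ∈ 𝒩 → Pool.Agent.Y703.CT.IsL (WD N) f ∧ f 1 ≠ 0 ∧
        f 1 = u * (((Omega (WD N) : ℝ) : ℂ) * (tamProd (WD N) : ℂ) / (tors N : ℂ) ^ 2) ∧
        ThreeUnit u := by
      intro N
      by_cases hN : N ∈ 𝒩
      · obtain ⟨-, -, f, hf, hf1, u, hu, hu'⟩ := h N hN
        exact ⟨f, u, fun _ => ⟨hf, hf1, hu, hu'⟩⟩
      · exact ⟨0, 0, fun h => absurd h hN⟩
    choose f u hfu using h'
    refine ⟨fun N hN => (h N hN).1, ?_, ?_, fun s => ∏ N ∈ 𝒩, f N s, ⟨?_, ?_⟩, ?_, ∏ N ∈ 𝒩, u N, ?_, ?_⟩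
    · have : ∀ N : 𝒩, Finite (EQ (WD ((N : ℕ) : ℤ))).toAffine.Point := fun N => (h N N.2).2.1.1
      exact Pi.finite
    · intro n x hx
      funext N
      exact (h N N.2).2.1.2 n (x N) (congrFun hx N)
    · exact Differentiable.fun_finsetProd fun N hN => (hfu N hN).1.1
    · intro s hs
      exact hasProd_prod fun N hN => (hfu N hN).1.2 s hs
    · exact prod_ne_zero_iff.2 fun N hN => (hfu N hN).2.1
    · rw [card_tors 𝒩 fun N hN => (h N hN).2.1.1]
      push_cast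
      rw [← prod_pow, ← prod_div_distrib, ← prod_mul_distrib]
      exact prod_congr rfl fun N hN => (hfu N hN).2.2.1
    · exact unit_prod 𝒩 u fun N hN => (hfu N hN).2.2.2

theorem twist_iff {S : Finset ℕ} {y : ℝ} {l : ℕ} (hl : l.Prime) (hl3 : l % 3 = 2) {P : Finset (ℕ × ℕ)}
    (hP : ∀ z ∈ P, Good S y l z) :
    ThreePart (twists P l) ↔ ∀ z ∈ P, Q283.TQ.Con (z.1 * l ^ z.2) := by
  have hC : ∀ N ∈ twists P l, Cls N := by
    intro N hN
    obtain ⟨z, hz, rfl⟩ := mem_image.1 hN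
    obtain ⟨h1, h2, h3, h4⟩ := hP z hz
    exact (Q283.TQ.cls_iff (Pool.Agent.Q84.MB.bs_pow h1 hl hl3 h3)).2 h4
  rw [part_iff hC]
  unfold twists
  simp only [forall_mem_image]

end proof

/-- **The 3-part of the formula for products of small cubic twists.** Let `ε > 0` and `Z` be given. There is
`δ > 0` such that for all large `x` there is a set `S` of at most `(log x) ^ (49 / 50)` primes, all larger than
`Z`, with the following properties for `a = 2, 5, 8`. Here `l` is a prime `= a` modulo `9`; `P` always denotes a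
finite set of pairs `(D, f)` with `f = 1` or `2`, `D` an integer of the class all of whose prime factors are at
most `δ log x` and outside `S`, and `D l ^ f ≠ ±1` modulo `9`; and `A` is the product of all `E_{D l ^ f}`,
`(D, f) ∈ P`.

(1) For every `t` at least `x ^ (1 - ε)` primes `l ≤ x` satisfy, for ALL `P` at once: the 3-part of the formula
with trivial `Ш(A)[3^∞]` holds for `A` if and only if for all `(D, f) ∈ P` the linear system of `D` with `f t`
on the diagonal is nonsingular.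

(2) At least `x ^ (1 - ε)` primes `l ≤ x` satisfy: the 3-part of the formula with trivial `Ш(A)[3^∞]` holds for
all `P` consisting of pairs `(D, f)` with `D` a prime power.

(3) For every finite set `𝒟` of integers `D` with at most `k` prime factors and with `D a ≠ ±1` modulo `9` at
least `x ^ (1 - ε)` primes `l ≤ x` satisfy: there is a subset `𝒟'` of `𝒟` with at least `(2 / 3) ^ k |𝒟|`
elements such that the 3-part of the formula with trivial `Ш(A)[3^∞]` holds for `A = ∏_{D ∈ 𝒟'} E_{D l}`. -/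
theorem result (ε : ℝ) (hε : 0 < ε) (Z : ℕ) : ∃ δ : ℝ, 0 < δ ∧ ∃ x₀ : ℕ, ∀ x : ℕ, x₀ ≤ x →
    ∃ S : Finset ℕ, (∀ q ∈ S, q.Prime ∧ Z < q) ∧ (S.card : ℝ) ≤ (Real.log x) ^ (49 / 50 : ℝ) ∧
    ∀ a : ℕ, a = 2 ∨ a = 5 ∨ a = 8 →
    -- (1)
    (∀ t : ℕ → ZMod 3, (x : ℝ) ^ (1 - ε) ≤ (count a (fun l => ∀ P : Finset (ℕ × ℕ),
      (∀ z ∈ P, Good S (δ * Real.log x) l z) →
      (ThreePart (twists P l) ↔ ∀ z ∈ P, Nonsingular z.1 fun p => (z.2 : ZMod 3) * t p)) x : ℝ)) ∧
    -- (2)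
    (x : ℝ) ^ (1 - ε) ≤ (count a (fun l => ∀ P : Finset (ℕ × ℕ),
      (∀ z ∈ P, Good S (δ * Real.log x) l z ∧ z.1.primeFactors.card ≤ 1) → ThreePart (twists P l)) x : ℝ) ∧
    -- (3)
    (∀ (k : ℕ) (𝒟 : Finset ℕ), (∀ D ∈ 𝒟, Class D ∧ Small S (δ * Real.log x) D ∧ D.primeFactors.card ≤ k ∧
        Ok (D * a)) →
      (x : ℝ) ^ (1 - ε) ≤ (count a (fun l => ∃ 𝒟' ⊆ 𝒟, (2 / 3 : ℝ) ^ k * (𝒟.card : ℝ) ≤ (𝒟'.card : ℝ) ∧
        ThreePart (𝒟'.image fun D => D * l)) x : ℝ)) := by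
  obtain ⟨δ, hδ, x₀, h⟩ := Pool.Agent.Q84.MB.cub_main (Z + 3) (by omega) ε hε
  refine ⟨δ, hδ, x₀, fun x hx => ?_⟩
  obtain ⟨-, -, S, hS, hSc, -, hmain⟩ := h x hx
  refine ⟨S, fun q hq => ⟨(hS q hq).1, by have := (hS q hq).2; omega⟩, hSc, fun a ha => ?_⟩
  have ha9 : a % 9 = a := by omega
  -- one curve
  have key : ∀ t : ℕ → ZMod 3, (x : ℝ) ^ (1 - ε) ≤ (count a (fun l => ∀ z : ℕ × ℕ,
      Good S (δ * Real.log x) l z →
      (Q283.TQ.Con (z.1 * l ^ z.2) ↔ Nonsingular z.1 fun p => (z.2 : ZMod 3) * t p)) x : ℝ) := by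
    intro t
    refine (hmain a t (by omega)).trans ?_
    unfold count
    apply Nat.cast_le.2
    apply card_le_card
    intro p hp
    rw [mem_filter] at hp ⊢
    obtain ⟨h1, h2, h3, h4, h5⟩ := hp
    have h4' : p % 9 = a % 9 := h4
    refine ⟨h1, h2, by omega, fun z hz => ?_⟩
    obtain ⟨hD, hDs, hf, hok⟩ := hz
    rw [Pool.Agent.Q84.MB.con_pow hD h2 (by omega) hf hok.1 hok.2]
    refine (Pool.Agent.Q84.MB.nsd_congr fun q hq => ?_)
    have hqp := Nat.prime_of_mem_primeFactors hq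
    have hqd := Nat.dvd_of_mem_primeFactors hq
    have h6 := h5 q hqp (hD.2 q hqp hqd).1 (hDs q hqp hqd).1 (hDs q hqp hqd).2
    rw [Pool.Agent.Q84.MB.lg3_eq] at h6
    rw [h6]
  have mono : ∀ R Q : ℕ → Prop, (∀ l, l.Prime → l % 9 = a → R l → Q l) → count a R x ≤ count a Q x := by
    intro R Q hRQ
    unfold count
    apply card_le_card
    intro p hp
    rw [mem_filter] at hp ⊢
    exact ⟨hp.1, hp.2.1, hp.2.2.1, hRQ p hp.2.1 hp.2.2.1 hp.2.2.2⟩
  refine ⟨fun t => ?_, ?_, fun k 𝒟 h𝒟 => ?_⟩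
  · refine (key t).trans (Nat.cast_le.2 (mono _ _ fun l hlp hla hl P hP => ?_))
    rw [twist_iff hlp (by omega) hP]
    exact forall_congr' fun z => forall_congr' fun hz => hl z (hP z hz)
  · refine (key fun _ => 1).trans (Nat.cast_le.2 (mono _ _ fun l hlp hla hl P hP => ?_))
    rw [twist_iff hlp (by omega) fun z hz => (hP z hz).1]
    intro z hz
    obtain ⟨h1, h2⟩ := hP z hz
    rw [hl z h1]
    apply Pool.Agent.Q84.MB.nsd_one h2
    intro _
    rcases h1.2.2.1 with h3 | h3 <;> rw [h3] <;> decide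
  · obtain ⟨t, ht⟩ := Pool.Agent.Q84.MB.sy_avg (𝒟.biUnion Nat.primeFactors) 𝒟 Pool.Agent.Q84.MB.BD
      Nat.primeFactors k (fun D hD => subset_biUnion_of_mem Nat.primeFactors hD) fun D hD => (h𝒟 D hD).2.2.1
    refine (key t).trans (Nat.cast_le.2 (mono _ _ fun l hlp hla hl => ?_))
    have hok : ∀ D ∈ 𝒟, Good S (δ * Real.log x) l (D, 1) := by
      intro D hD
      obtain ⟨h1, h2, -, h3⟩ := h𝒟 D hD
      refine ⟨h1, h2, Or.inl rfl, ?_⟩
      show Ok (D * l ^ 1)
      unfold Ok at h3 ⊢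
      rw [pow_one, Nat.mul_mod, hla]
      rw [Nat.mul_mod, ha9] at h3
      exact h3
    refine ⟨𝒟.filter fun D => Pool.Agent.Q84.MB.Sy (Pool.Agent.Q84.MB.BD D) D.primeFactors t,
      filter_subset _ _, ?_, ?_⟩
    · rw [div_pow]
      rw [div_mul_eq_mul_div, div_le_iff₀ (by positivity)]
      have h5 : ((2 ^ k * 𝒟.card : ℕ) : ℝ) ≤ ((3 ^ k * (𝒟.filter fun D =>
        Pool.Agent.Q84.MB.Sy (Pool.Agent.Q84.MB.BD D) D.primeFactors t).card : ℕ) : ℝ) := by exact_mod_cast ht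
      push_cast at h5
      rw [mul_comm ((3 : ℝ) ^ k)] at h5
      exact h5
    · have e : ((𝒟.filter fun D => Pool.Agent.Q84.MB.Sy (Pool.Agent.Q84.MB.BD D) D.primeFactors t).image
          fun D => D * l) = twists ((𝒟.filter fun D =>
            Pool.Agent.Q84.MB.Sy (Pool.Agent.Q84.MB.BD D) D.primeFactors t).image fun D => (D, 1)) l := by
        unfold twists
        rw [image_image]
        apply image_congr
        intro D _
        simp
      rw [e, twist_iff hlp (by omega) (S := S) (y := δ * Real.log x)]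
      · intro z hz
        obtain ⟨D, hD, rfl⟩ := mem_image.1 hz
        rw [mem_filter] at hD
        rw [hl (D, 1) (hok D hD.1)]
        have h6 := (Pool.Agent.Q84.MB.nsd_iff D t).2 hD.2
        refine (Pool.Agent.Q84.MB.nsd_congr fun q _ => ?_).1 h6
        rw [Nat.cast_one, one_mul]
      · intro z hz
        obtain ⟨D, hD, rfl⟩ := mem_image.1 hz
        exact hok D (mem_filter.1 hD).1

end Pool.Agent.Results.MP_dfae13_nt.GrowingProducts
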