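import Pool.Agent.Q69.LJ.PathJ

/-!
# Large deviations of the path of the Euler products of hyperelliptic Jacobians, over every number field

Let `K` be a number field with the ring of integers `𝓞`, `g ≥ 1` and `0 ≤ r ≤ g`. The curves of genus `g`
`C_t : y ^ 2 = f_t(x) = (x - a_1) ⋯ (x - a_r) h(x) + l(x) ^ 2`,
with a monic polynomial `h` of degree `2 g + 1 - r` and a polynomial `l` of degree `< r` over `𝓞`, are all the curves
`y ^ 2 = f(x)`, `f` monic of degree `2 g + 1`, with `r` marked points `(a_i, l(a_i))` in general position. Let `J_t` be the Jacobian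
of `C_t`, an abelian variety of dimension `g`, and `P_v(T)` the characteristic polynomial of the Frobenius at `v`, so that
`L(J_t, s) = ∏ P_v(N v ^ (-s)) ^ (-1)`; `P_v(1 / N v) = #J_t(k_v) / (N v) ^ g`.

If the good primes of norm at most `Y` are added to the set `S` in the leading-term formula of Birch and Swinnerton-Dyer, both sides
are multiplied by `P(Y) = ∏_{N v ≤ Y} P_v(1 / N v)`. For almost all members of the family one has `P(Y) = (log Y) ^ (r + 1 / 2 + o(1))`
on the whole scale `Y = exp ((log X) ^ s)`, `0 ≤ s ≤ 1`. Here it is determined, on the exponential scale, how many members follow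
any other path: let `0 ≤ s_0 < s_1 < ... < s_k ≤ 1` and let `h_1, ..., h_k` be real numbers. The proportion of the members of a box
with sides at least `X ^ ((log log X) ^ 3)` for which `log P` grows with the slope `h_i` between `s_{i-1}` and `s_i`, that is
`P(exp ((log X) ^ (s_i))) / P(exp ((log X) ^ (s_{i-1}))) = (log X) ^ ((h_i ± η) (s_i - s_{i-1}))` for all `i`, is
`(log X) ^ (-c + o(1))` with the cost `c = ∑ (h_i - r - 1 / 2) ^ 2 (s_i - s_{i-1}) / 2`. So the paths satisfy the large deviation
principle of the Brownian motion with the drift `r + 1 / 2`, with speed `log log X`. It holds also if only the members with an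
irreducible `f_t` and `rank J_t(K) ≥ r` are counted. For example, for every `ρ` and every `s < 1` there are members of rank
at least `r` whose products behave up to `exp ((log X) ^ s)` like those of a member of rank `ρ`, and later like those of a member of
rank `r`; their proportion is `(log X) ^ (-(ρ - r) ^ 2 s / 2 + o(1))`.

Proof. Every linear combination of the increments of `log P` is a sum over the primes `p ≤ X` of functions of the residues modulo `p`
whose means and variances are known. The exponential moments of such a sum in a model of independent variables are computed up to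
a constant factor; the parameters of a box with sides at least `X ^ ((log log X) ^ 3)` have the same joint moments as the model up to
the order `(log log X) ^ 2`, up to a tiny error, and `(1 + x / 2 N) ^ (2 N)` is used instead of the exponential. Large deviations in
all directions give those of the vector, since the balls are strictly convex: a vector whose component in the direction `u` is at
least `ρ` and whose norm is at most `ρ + δ` is close to `ρ u`. The rank: a sieve.
-/

set_option autoImplicit false

namespace Pool.Agent.Results.MP_dfae13_nt.PathLargeDeviations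

open Finset NumberField Polynomial
open Q282.JK

/-- The integer part of `exp ((log X) ^ s)`. -/
noncomputable def time (X : ℕ) (s : ℝ) : ℕ := ⌊Real.exp (Real.log X ^ s)⌋₊

/-- The mean slope of `s ↦ log P(exp ((log X) ^ s)) / log log X` between the times `s` and `s'`, for the curve `y ^ 2 = f(x)`, where
`P(Y)` is the product of the `P_v(1 / N v)` over the primes `v` of norm at most `Y` with `Good f v`. -/
noncomputable def slope {K : Type} [Field K] [NumberField K] (f : (𝓞 K)[X]) (X : ℕ) (s s' : ℝ) : ℝ :=
  (Real.log (product f (time X s')) - Real.log (product f (time X s))) / ((s' - s) * Real.log (Real.log X))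

/-- The cost of the slopes `h`: the sum of the `(h_i - r - 1 / 2) ^ 2 (s_i - s_{i-1}) / 2`. -/
noncomputable def cost {k : ℕ} (r : ℕ) (s : Fin (k + 1) → ℝ) (h : Fin k → ℝ) : ℝ :=
  ∑ i, (h i - (r + 1 / 2)) ^ 2 * (s i.succ - s i.castSucc) / 2

/-- The box of the integers `n k` with `N k ≤ n k < N k + L k` for all `k`. -/
noncomputable def box {κ : Type} [Fintype κ] [DecidableEq κ] (N : κ → ℤ) (L : κ → ℕ) : Finset (κ → ℤ) :=
  Fintype.piFinset fun k => Ico (N k) (N k + L k)

/-- The elements `t i = ∑ n (i, j) b j` with the coordinates `n (i, j)`. -/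
def combine {O : Type} [CommRing O] {ι : Type} {d : ℕ} (b : Fin d → O) (n : ι × Fin d → ℤ) : ι → O :=
  fun i => ∑ j, (n (i, j) : O) * b j

open Classical in
/-- The proportion of the `n` of the box with the property `P`. -/
noncomputable def proportion {κ : Type} [Fintype κ] [DecidableEq κ] (N : κ → ℤ) (L : κ → ℕ) (P : (κ → ℤ) → Prop) : ℝ :=
  (((box N L).filter P).card : ℝ) / ∏ k, (L k : ℝ)

/-- The polynomial `f` of odd degree over the ring of integers of `K` is irreducible over `K`, and the group of the `K`-rational
points of the Jacobian of the curve `y ^ 2 = f(x)`, which is the class group of its affine coordinate ring over `K`, has rank at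
least `r`. -/
def Rank (K : Type) [Field K] [NumberField K] (r : ℕ) (f : (𝓞 K)[X]) : Prop :=
  Irreducible (f.map (algebraMap (𝓞 K) K)) ∧ HasClassRank (CoordRing (f.map (algebraMap (𝓞 K) K))) r

open Classical in
/-- Let `K` be a number field, `g ≥ 1`, `0 ≤ r ≤ g`, `k ≥ 1`, `0 ≤ s_0 < s_1 < ... < s_k ≤ 1`, `Y` real, `η > 0` and `ε > 0`. There is
an `X₁` with the following property. Let `X ≥ X₁` and `T ≥ X ^ ((log log X) ^ 3)`, let `b` be a basis of the ring of integers of `K`
over `ℤ`, and let a box `N k ≤ n k < N k + L k` of coordinates be given all sides `L k` of which are at least `T`. For `n` in the box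
let `f_n = fpol t = (x - a_1) ⋯ (x - a_r) h(x) + l(x) ^ 2`, of degree `2 g + 1`, be the polynomial with the parameters
`t i = ∑ n (i, j) b j`. Then:

* for all real `h_1, ..., h_k` with `|h_i| ≤ Y` the proportion of the `n` for which `f_n` is irreducible over `K`, the group of the
  `K`-rational points of the Jacobian of the curve `y ^ 2 = f_n(x)` has rank at least `r`, and for `i = 1, ..., k` the slope of
  `s ↦ log P_n(exp ((log X) ^ s)) / log log X` between `s_{i-1}` and `s_i` differs from `h_i` by at most `η`, is at least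
  `(log X) ^ (-c - ε)`, where `c = ∑ (h_i - r - 1 / 2) ^ 2 (s_i - s_{i-1}) / 2`;
* for all `0 ≤ I ≤ Y` the proportion of the `n` for which the cost of the slopes, `∑ (h_i - r - 1 / 2) ^ 2 (s_i - s_{i-1}) / 2` with the
  slopes `h_i` between `s_{i-1}` and `s_i`, is at least `I`, is at most `(log X) ^ (-I + ε)`.

Here `P_n(Y)` is the product of the `P_v(1 / N v) = #J(k_v) / (N v) ^ g` over the primes `v` of `K` of norm at most `Y` with
`Good f_n v`. -/
theorem result (K : Type) [Field K] [NumberField K] (g r : ℕ) (hg : 1 ≤ g) (hr : r ≤ g) (k : ℕ) (hk : 1 ≤ k) (s : Fin (k + 1) → ℝ)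
    (hs : StrictMono s) (hs0 : 0 ≤ s 0) (hs1 : s (Fin.last k) ≤ 1) (Y η ε : ℝ) (hη : 0 < η) (hε : 0 < ε) :
    ∃ X₁ : ℕ, ∀ X : ℕ, X₁ ≤ X → ∀ T : ℝ, (X : ℝ) ^ ((Real.log (Real.log X)) ^ 3) ≤ T →
    ∀ (b : Module.Basis (Fin (Module.finrank ℚ K)) ℤ (𝓞 K))
    (N : Idx r (2 * g + 1 - r) × Fin (Module.finrank ℚ K) → ℤ) (L : Idx r (2 * g + 1 - r) × Fin (Module.finrank ℚ K) → ℕ),
    (∀ k, T ≤ L k) →
      (∀ h : Fin k → ℝ, (∀ i, |h i| ≤ Y) →
        (Real.log X) ^ (-cost r s h - ε) ≤ proportion N L (fun n => Rank K r (fpol (combine b n)) ∧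
          ∀ i : Fin k, |slope (fpol (combine b n)) X (s i.castSucc) (s i.succ) - h i| ≤ η)) ∧
      (∀ I : ℝ, 0 ≤ I → I ≤ Y →
        proportion N L (fun n => I ≤ cost r s fun i => slope (fpol (combine b n)) X (s i.castSucc) (s i.succ)) ≤
          (Real.log X) ^ (-I + ε)) := by
  -- the shortest interval
  have hΔ : ∀ i : Fin k, 0 < s i.succ - s i.castSucc := fun i => sub_pos.2 (hs Fin.castSucc_lt_succ)
  obtain ⟨δ, hδ0, hδ⟩ : ∃ δ : ℝ, 0 < δ ∧ ∀ i : Fin k, δ ≤ s i.succ - s i.castSucc := by
    have hne : (univ : Finset (Fin k)).Nonempty := ⟨⟨0, hk⟩, mem_univ _⟩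
    refine ⟨univ.inf' hne fun i => s i.succ - s i.castSucc, (lt_inf'_iff _).2 fun i _ => hΔ i, fun i => inf'_le _ (mem_univ i)⟩
  obtain ⟨X₁, hX₁, h⟩ := Q69.LJ.path_J K g r hg hr k hk s hs hs0 hs1 Y (η * δ) ε (mul_pos hη hδ0) hε
  refine ⟨X₁, ?_⟩
  intro X hX T hT b N L hL
  have hX16 : 16 ≤ X := hX₁.trans hX
  have hX0 : (16 : ℝ) ≤ X := by exact_mod_cast hX16
  have hlogX : 1 < Real.log X := by
    rw [Real.lt_log_iff_exp_lt (by linarith)]
    linarith [Real.exp_one_lt_three]
  have hlog0 : 0 < Real.log X := by linarith
  have hV : 0 < Real.log (Real.log X) := Real.log_pos hlogX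
  have hb : ∀ x : 𝓞 K, ∃ a : Fin (Module.finrank ℚ K) → ℤ, x = ∑ j, (a j : 𝓞 K) * b j := by
    intro x
    refine ⟨fun j => b.repr x j, ?_⟩
    have h1 := b.sum_repr x
    rw [← h1]
    refine sum_congr rfl fun j _ => ?_
    rw [h1, zsmul_eq_mul]
  have hT0 : 0 < T := lt_of_lt_of_le (Real.rpow_pos_of_pos (by linarith) _) hT
  have hP0 : 0 < ∏ k, (L k : ℝ) := prod_pos fun k _ => hT0.trans_le (hL k)
  have hpow : ∀ a : ℝ, (Real.log X) ^ a = Real.exp (a * Real.log (Real.log X)) := by
    intro a
    rw [Real.rpow_def_of_pos hlog0, mul_comm]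
  obtain ⟨h1, h2⟩ := h X hX T hT (fun j => b j) hb N L hL
  -- the slopes
  have hsl : ∀ (n : Idx r (2 * g + 1 - r) × Fin (Module.finrank ℚ K) → ℤ) (i : Fin k),
      Real.log (product (fpol (combine b n)) (time X (s i.succ))) - Real.log (product (fpol (combine b n)) (time X (s i.castSucc))) =
      slope (fpol (combine b n)) X (s i.castSucc) (s i.succ) * ((s i.succ - s i.castSucc) * Real.log (Real.log X)) := by
    intro n i
    unfold slope
    rw [div_mul_cancel₀]
    exact (mul_pos (hΔ i) hV).ne'
  refine ⟨fun a ha => ?_, fun I hI hIY => ?_⟩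
  · have h3 := h1 a ha
    have e1 : -cost r s a - ε = -(cost r s a + ε) := by ring
    unfold proportion
    rw [hpow, e1, le_div_iff₀ hP0, neg_mul]
    refine h3.trans (Nat.cast_le.2 (card_le_card fun n hn => ?_))
    replace hn := (@mem_filter _ _ (_) _ _).1 hn
    refine (@mem_filter _ _ (_) _ _).2 ⟨hn.1, hn.2.1, fun i => ?_⟩
    have h4 := hn.2.2 i
    have h5 : |slope (fpol (combine b n)) X (s i.castSucc) (s i.succ) * ((s i.succ - s i.castSucc) * Real.log (Real.log X)) -
        a i * (s i.succ - s i.castSucc) * Real.log (Real.log X)| ≤ η * δ * Real.log (Real.log X) := by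
      rw [← hsl]
      exact h4
    have h6 : slope (fpol (combine b n)) X (s i.castSucc) (s i.succ) * ((s i.succ - s i.castSucc) * Real.log (Real.log X)) -
        a i * (s i.succ - s i.castSucc) * Real.log (Real.log X) =
        (slope (fpol (combine b n)) X (s i.castSucc) (s i.succ) - a i) * ((s i.succ - s i.castSucc) * Real.log (Real.log X)) := by ring
    rw [h6, abs_mul, abs_of_pos (mul_pos (hΔ i) hV)] at h5
    have h7 : η * δ * Real.log (Real.log X) ≤ η * ((s i.succ - s i.castSucc) * Real.log (Real.log X)) := by
      rw [mul_assoc]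
      exact mul_le_mul_of_nonneg_left (mul_le_mul_of_nonneg_right (hδ i) hV.le) hη.le
    exact le_of_mul_le_mul_right (h5.trans h7) (mul_pos (hΔ i) hV)
  · have h3 := h2 I hI hIY
    have e1 : -I + ε = -(I - ε) := by ring
    unfold proportion
    rw [hpow, e1, div_le_iff₀ hP0, neg_mul]
    refine le_trans (Nat.cast_le.2 (card_le_card fun n hn => ?_)) h3
    replace hn := (@mem_filter _ _ (_) _ _).1 hn
    refine (@mem_filter _ _ (_) _ _).2 ⟨hn.1, ?_⟩
    have h4 : ∑ i : Fin k, ((Real.log (product (fpol (combine b n)) (time X (s i.succ))) -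
          Real.log (product (fpol (combine b n)) (time X (s i.castSucc)))) - (r + 1 / 2) * (s i.succ - s i.castSucc) * Real.log (Real.log X)) ^ 2 /
            (2 * (s i.succ - s i.castSucc)) =
        (cost r s fun i => slope (fpol (combine b n)) X (s i.castSucc) (s i.succ)) * Real.log (Real.log X) ^ 2 := by
      unfold cost
      rw [sum_mul]
      refine sum_congr rfl fun i _ => ?_
      rw [hsl]
      have := (hΔ i).ne'
      field_simp
    have h5 := mul_le_mul_of_nonneg_right hn.2 (sq_nonneg (Real.log (Real.log X)))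
    rw [← h4] at h5
    exact h5

end Pool.Agent.Results.MP_dfae13_nt.PathLargeDeviations
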