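import Pool.Agent.Q283.AV.Fin

/-!
# The 3-part of the Birch and Swinnerton-Dyer formula for a positive proportion of the prime twists of
every member of a family of CM abelian varieties of dimension `3 ^ (k - 1)` over `ℚ(ω)`

`K = ℚ(ω)`, `E : y² + y = x³`, `k ≥ 2`. For a character `χ` of order `3 ^ k` that is a product of
characters `lam j` of exact order `3 ^ k` modulo different Eisenstein primes `π j = 1` modulo `3` with
norm `1` modulo `3 ^ (k + 1)`, the abelian variety `A_χ` over `K`, of dimension `3 ^ (k - 1)`, is the
twist of `E ⊗ ℤ[ζ]` by `χ`; its restriction of scalars `B_χ` to `ℚ` has dimension `2 * 3 ^ (k - 1)`.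

Let `χ₀` be ANY such character (`m ≥ 0` primes, no condition on the residue symbols, none modulo
`9`). Among the primes `ρ = 1` modulo `3` of norm `1` modulo `3 ^ (k + 1)`, ordered by the norm:

* for each of the two types `ε` of characters `λ` modulo `ρ` of exact order `3 ^ k` (the power
  `λ ^ 3 ^ (k - 1)` is the `ε`-th power of the cubic residue symbol) an explicit set of primes `ρ`
  has relative density exactly `(2 / 3) c(χ₀)`, where `c(χ₀) ≥ (2 / 3) ^ m` is the proportion of the
  diagonal perturbations that make the Laplacian of the cubic residue symbols of the `π j`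
  nonsingular over the field with three elements;
* the set of the `ρ` that are good for both types has a density `≥ (1 / 3) ^ (m + 1)`;
* for all these `ρ`, all characters `λ` modulo `ρ` of exact order `3 ^ k` (of the type `ε`,
  respectively all) and `χ = χ₀ λ`: the `L`-functions of the Hecke characters `ψ χ ^ t`, `t` prime to
  `3`, are entire and their values at `1` are `Ω (1 - ζ) ^ m` up to units above `3`; so
  `L(B_χ, 1) = Ω ^ (2 * 3 ^ (k - 1)) 3 ^ m` up to a unit above `3`, `A_χ(K)` has order `3` and
  `Ш(A_χ / K)[3 ^ ∞] = 0`.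

The criterion for one character is that of the starting library
(`MP_dfae13_nt.ThreePartTwists`); new are the primes `ρ` and their density for every `χ₀`:
reciprocity shows that one new prime perturbs the diagonal of the matrix of `χ₀` by its own residue
symbols, at least `(2 / 3) ^ m` of the perturbations are nonsingular, the condition modulo `9` is one
on the cubic residue symbol of `3` by the supplementary law, and the joint law of the symbols of the
`π j` and of `3` among the primes of norm `1` modulo `3 ^ (k + 1)` follows from the theorem of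
Chebotarev and from the independence of the cube roots over the field of the `3 ^ (k + 1)`-th roots
of unity.

The definitions are in `Pool.Agent.Y715.T.St` and `Pool.Agent.Q283.AV.St`.
-/

set_option autoImplicit false

open Pool.Agent.Y715.T.St Q283.AV.St Filter Topology
open scoped Classical

/-- **A positive proportion of the prime twists of every member.** -/
theorem Pool.Agent.Results.MP_dfae13_nt.PrimeTwistsOfEveryMember.result (k m : ℕ) (hk : 2 ≤ k)
    -- the Eisenstein primes `π j` and the characters `lam j` of the given member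
    (π : Fin m → Eis) (hπ : ∀ j, Adm k (π j)) (hinj : Function.Injective π)
    (lam : ∀ j, MulChar (Eis ⧸ Ideal.span {π j}) ℂ) (hlam : ∀ j, orderOf (lam j) = 3 ^ k)
    (ζ : ℂ) (hζ : ζ ^ 3 ^ (k - 1) = omega) :
    -- the types of the `lam j`
    ∃ e : Fin m → ZMod 3, (∀ j, e j ≠ 0 ∧ OfType k (π j) (lam j) (e j)) ∧
      -- the density of the new primes for the characters of type `ε`
      (∀ ε : ZMod 3, ε ≠ 0 →
        Tendsto (fun X : ℕ => (count (Good k π e ε) X : ℝ) / (count (Adm k) X : ℝ)) atTop
          (𝓝 (2 / 3 * ((Nat.card {u : Fin m → ZMod 3 // Nonsing π e u} : ℝ) / 3 ^ m)))) ∧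
      (2 / 3 : ℝ) ^ m ≤ (Nat.card {u : Fin m → ZMod 3 // Nonsing π e u} : ℝ) / 3 ^ m ∧
      -- the density of the new primes for all characters
      (∃ d : ℝ, (1 / 3 : ℝ) ^ (m + 1) ≤ d ∧
        Tendsto (fun X : ℕ => (count (fun ρ => Good k π e 1 ρ ∧ Good k π e 2 ρ) X : ℝ) /
          (count (Adm k) X : ℝ)) atTop (𝓝 d)) ∧
      -- the product of the `lam j` and a character of exact order `3 ^ k` modulo a new prime
      ∀ (ρ : Eis) (lam' : ∀ j : Fin (m + 1),
          MulChar (Eis ⧸ Ideal.span {(Fin.snoc π ρ : Fin (m + 1) → Eis) j}) ℂ),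
        (∀ (j : Fin m) (x : Eis), lam' j.castSucc (Ideal.Quotient.mk _ x) =
          lam j (Ideal.Quotient.mk _ x)) → orderOf (lam' (Fin.last m)) = 3 ^ k →
        (∀ ε : ZMod 3, OfType k ((Fin.snoc π ρ : Fin (m + 1) → Eis) (Fin.last m))
          (lam' (Fin.last m)) ε → Good k π e ε ρ → Concl k (m + 1) (Fin.snoc π ρ) lam' ζ) ∧
        (Good k π e 1 ρ ∧ Good k π e 2 ρ → Concl k (m + 1) (Fin.snoc π ρ) lam' ζ) :=
  Q283.AV.main k m hk π hπ hinj lam hlam ζ hζ
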